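import Mathlib
import Pool.Agent.X323.CN.Geo2

set_option autoImplicit false

/-!
# The function `β` in the Lang–Vojta conjecture for affine curves: a lower bound

Let `D` be the sum of the `n + 1` coordinate hyperplanes of `ℙ^n`, `n ≥ 2`, of a hypersurface `F = 0`
of degree `e ≥ 1` which meets the three lines joining three of the coordinate vertices transversally,
and of any hypersurface `E = 0` of degree `e'` (possibly none). Every normal crossings divisor which
contains `n + 1` hyperplanes in general position and a further component is of this form. The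
complement `X` of `D` is affine, and `K + D` has the degree `e + e'`, so `X` is of log general type.
Suppose that `deg f(C) ≤ β(χ(C))` for all non-constant morphisms `f` from affine curves `C` to `X`
whose image is not contained in the hypersurface `G = 0` of degree `δ`. Then
`β((e + e') b - 1) ≥ b` for all `b ≥ 2` with `b φ(b) > δ + e'`. So the bound `(e + e') deg f(C) ≤ χ(C)`
fails, whatever the exceptional set.
-/

namespace Pool.Agent.Results.MP_70ba79_ag.DegreeFunctionLowerBound

open MvPolynomial

/-- The polynomials `f i` define an injective morphism `t ↦ (f 0 (t) : ⋯ : f n (t))` of degree `b`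
from the affine curve `𝔸¹ ∖ S` to the complement of `D = 0` in projective space. The Euler
characteristic `2 g - 2 + s` of `𝔸¹ ∖ S` is `-2 + (|S| + 1) = |S| - 1`, and the closure of the image
is a curve of degree `b`. -/
structure RationalCurve {k : Type} [Field k] {n : ℕ} (D : MvPolynomial (Fin (n + 1)) k) (b : ℕ)
    (S : Finset k) (f : Fin (n + 1) → Polynomial k) : Prop where
  noCommonZero : ∀ t, ∃ i, (f i).eval t ≠ 0
  degree : Finset.univ.sup (fun i => (f i).natDegree) = b
  off : ∀ t, t ∉ S → eval (fun i => (f i).eval t) D ≠ 0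
  injective : ∀ t s, t ∉ S → s ∉ S → (∃ c : k, ∀ i, (f i).eval t = c * (f i).eval s) → t = s

/-- `deg f(C) ≤ β(χ(C))` for the injective morphisms `f : C → X` from the affine curves `C = 𝔸¹ ∖ S`
to the complement `X` of `D = 0` whose images are not contained in `G = 0`. -/
def DegreeBound {k : Type} [Field k] {n : ℕ} (D G : MvPolynomial (Fin (n + 1)) k) (β : ℤ → ℝ) :
    Prop :=
  ∀ (b : ℕ) (S : Finset k) (f : Fin (n + 1) → Polynomial k), 1 ≤ b → RationalCurve D b S f →
    (∃ t, t ∉ S ∧ eval (fun i => (f i).eval t) G ≠ 0) → (b : ℝ) ≤ β ((S.card : ℤ) - 1)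

/-- `F = 0` does not contain the coordinate vertices `i` and `j`, and meets the line joining them
transversally: at the common points of the two the derivatives of `F` with respect to the variables
`i` and `j` do not both vanish. -/
def Transversal {k : Type} [Field k] {n : ℕ} (F : MvPolynomial (Fin (n + 1)) k)
    (i j : Fin (n + 1)) : Prop :=
  ∀ u : Fin (n + 1) → k, u ≠ 0 → (∀ l, l ≠ i → l ≠ j → u l = 0) → eval u F = 0 →
    u i ≠ 0 ∧ u j ≠ 0 ∧ (eval u (pderiv i F) ≠ 0 ∨ eval u (pderiv j F) ≠ 0)

open Pool.Agent.X323.CN Pool.Agent.X323.TV in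
/-- Let `k` be an algebraically closed field of characteristic zero, `F` a form of degree `e ≥ 1` and
`E ≠ 0` a form of degree `e'` in `n + 1` variables, and `D` the sum of the coordinate hyperplanes, of
`F = 0` and of `E = 0`. Suppose that `F = 0` meets the three lines joining three of the coordinate
vertices transversally. Let `G ≠ 0` be a form of degree `δ` and `β` a function such that
`deg f(C) ≤ β(χ(C))` for all injective morphisms from curves `C = 𝔸¹ ∖ S` to the complement of `D`
whose images are not contained in `G = 0`. Then `b ≤ β((e + e') b - 1)` for all `b ≥ 2` with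
`b φ(b) > δ + e'`, in particular for all `b > δ + e'`. -/
theorem result (k : Type) [Field k] [IsAlgClosed k] [CharZero k] (n e : ℕ) (he : 1 ≤ e)
    (F : MvPolynomial (Fin (n + 1)) k) (hF : F.IsHomogeneous e) (e' : ℕ)
    (E : MvPolynomial (Fin (n + 1)) k) (hE : E.IsHomogeneous e') (hE0 : E ≠ 0)
    (i₀ i₁ i₂ : Fin (n + 1)) (h01 : i₀ ≠ i₁) (h02 : i₀ ≠ i₂) (h12 : i₁ ≠ i₂)
    (hT01 : Transversal F i₀ i₁) (hT02 : Transversal F i₀ i₂) (hT12 : Transversal F i₁ i₂)
    (δ : ℕ) (G : MvPolynomial (Fin (n + 1)) k) (hG : G.IsHomogeneous δ) (hG0 : G ≠ 0)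
    (β : ℤ → ℝ) (hβ : DegreeBound ((∏ i, X i) * (F * E)) G β) (b : ℕ) (hb : 2 ≤ b)
    (hbδ : δ + e' < b * b.totient) : (b : ℝ) ≤ β (((e + e') * b : ℕ) - 1) := by
  classical
  have : Infinite k := IsAlgClosed.instInfinite
  -- a tangent coset which is not contained in `G E = 0`
  obtain ⟨u, κ, j0, m0, m1, hu, hFu, htan, hnot, hj0, hmax, hcop, hκb, hGE⟩ :
      ∃ (u : Fin (n + 1) → k) (κ : Fin (n + 1) → ℕ) (j0 m0 m1 : Fin (n + 1)), (∀ i, u i ≠ 0) ∧
      eval u F = 0 ∧ ∑ i, (κ i : k) * u i * eval u (pderiv i F) = 0 ∧ onCurve u κ F ≠ 0 ∧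
      κ j0 = 0 ∧ (∀ i, κ i ≤ κ m0) ∧ Nat.Coprime (κ m1) (κ m0) ∧ κ m0 = b ∧
      onCurve u κ (G * E) ≠ 0 := by
    by_contra hcon
    push Not at hcon
    have h := geoS hF he h01 h02 h12 hT01 hT02 hT12 (hG.mul hE) (mul_ne_zero hG0 hE0) {b}
      (fun c hc => by rw [Finset.mem_singleton.1 hc]; exact hb)
      (fun u κ j0 m0 m1 a1 a2 a3 a4 a5 a6 a7 a8 =>
        hcon u κ j0 m0 m1 a1 a2 a3 a4 a5 a6 a7 (Finset.mem_singleton.1 a8))
    rw [Finset.sum_singleton] at h
    omega
  -- the polynomial `F (u T ^ k) = (T - 1) ^ 2 q (T)`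
  set p : Polynomial k := onCurve u κ F with hp
  have hp1 : p.IsRoot 1 := by
    rw [Polynomial.IsRoot, hp, eval_onCurve_one, hFu]
  obtain ⟨q1, hq1⟩ := Polynomial.dvd_iff_isRoot.2 hp1
  have hq1r : q1.IsRoot 1 := by
    have h1 := derivative_onCurve_one u κ F
    rw [htan, ← hp, hq1, Polynomial.derivative_mul, Polynomial.eval_add, Polynomial.eval_mul,
      Polynomial.eval_mul] at h1
    simpa using h1
  obtain ⟨q, hq⟩ := Polynomial.dvd_iff_isRoot.2 hq1r
  have hpq : p = (Polynomial.X - Polynomial.C 1) ^ 2 * q := by rw [hq1, hq]; ring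
  have hq0 : q ≠ 0 := by
    rintro rfl
    exact hnot (by rw [hpq, mul_zero])
  have hdeg : q.natDegree + 2 ≤ e * b := by
    have h1 : p.natDegree = q.natDegree + 2 := by
      rw [hpq, Polynomial.natDegree_mul (pow_ne_zero _ (Polynomial.X_sub_C_ne_zero 1)) hq0,
        Polynomial.natDegree_pow, Polynomial.natDegree_X_sub_C]
      omega
    rw [← h1, ← hκb]
    exact natDegree_onCurve_le u κ F hF hmax
  set A : Polynomial k := onCurve u κ E with hA
  rw [map_mul] at hGE
  have hA0 : A ≠ 0 := right_ne_zero_of_mul hGE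
  have hG1 : onCurve u κ G ≠ 0 := left_ne_zero_of_mul hGE
  have hAdeg : A.natDegree ≤ e' * b := by
    rw [← hκb]
    exact natDegree_onCurve_le _ κ E hE hmax
  -- the punctures
  set S0 : Finset k := {0} ∪ {1} ∪ q.roots.toFinset ∪ A.roots.toFinset with hS0
  have hcard : S0.card ≤ (e + e') * b := by
    have c1 : q.roots.toFinset.card ≤ q.natDegree :=
      (Multiset.toFinset_card_le _).trans (Polynomial.card_roots' q)
    have c2 : A.roots.toFinset.card ≤ A.natDegree :=
      (Multiset.toFinset_card_le _).trans (Polynomial.card_roots' A)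
    have c3 := Finset.card_union_le (({0} : Finset k) ∪ {1} ∪ q.roots.toFinset) A.roots.toFinset
    have c4 := Finset.card_union_le (({0} : Finset k) ∪ {1}) q.roots.toFinset
    have c5 := Finset.card_union_le ({0} : Finset k) {1}
    rw [Finset.card_singleton, Finset.card_singleton] at c5
    have c6 : (e + e') * b = e * b + e' * b := add_mul _ _ _
    have c7 : S0.card = ({0} ∪ {1} ∪ q.roots.toFinset ∪ A.roots.toFinset).card := rfl
    omega
  obtain ⟨S, hS0S, hScard⟩ := Infinite.exists_superset_card_eq S0 ((e + e') * b) hcard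
  have hout : ∀ t, t ∉ S → t ≠ 0 ∧ p.eval t ≠ 0 ∧ A.eval t ≠ 0 := by
    intro t ht
    have h1 : t ∉ S0 := fun h => ht (hS0S h)
    rw [hS0] at h1
    simp only [Finset.mem_union, Finset.mem_singleton, Multiset.mem_toFinset, not_or] at h1
    obtain ⟨⟨⟨h2, h3⟩, h4⟩, h5⟩ := h1
    rw [Polynomial.mem_roots hq0] at h4
    rw [Polynomial.mem_roots hA0] at h5
    refine ⟨h2, ?_, h5⟩
    rw [hpq, Polynomial.eval_mul, Polynomial.eval_pow, Polynomial.eval_sub, Polynomial.eval_X,
      Polynomial.eval_C]
    exact mul_ne_zero (pow_ne_zero _ (sub_ne_zero.2 h3)) h4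
  set f : Fin (n + 1) → Polynomial k := fun i => Polynomial.C (u i) * Polynomial.X ^ κ i with hf
  have hfe : ∀ i t, (f i).eval t = u i * t ^ κ i := fun i t => by simp [hf]
  have hfu : ∀ t (P : MvPolynomial (Fin (n + 1)) k), eval (fun i => (f i).eval t) P =
      (onCurve u κ P).eval t := by
    intro t P
    rw [eval_onCurve]
    simp only [hfe]
  have hcurve : RationalCurve ((∏ i, X i) * (F * E)) b S f := by
    refine ⟨?_, ?_, ?_, ?_⟩
    · intro t
      refine ⟨j0, ?_⟩
      rw [hfe, hj0, pow_zero, mul_one]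
      exact hu j0
    · have h1 : ∀ i, (f i).natDegree = κ i := fun i =>
        Polynomial.natDegree_C_mul_X_pow _ _ (hu i)
      simp only [h1]
      refine le_antisymm (Finset.sup_le fun i _ => ?_) ?_
      · rw [← hκb]; exact hmax i
      · rw [← hκb]; exact Finset.le_sup (f := κ) (Finset.mem_univ m0)
    · intro t ht
      obtain ⟨h1, h2, h3⟩ := hout t ht
      rw [map_mul, map_mul, map_prod, hfu t F, hfu t E]
      refine mul_ne_zero (Finset.prod_ne_zero_iff.2 fun i _ => ?_) (mul_ne_zero h2 h3)
      rw [eval_X, hfe]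
      exact mul_ne_zero (hu i) (pow_ne_zero _ h1)
    · rintro t s ht hs ⟨c, hc⟩
      have ht0 := (hout t ht).1
      have hs0 := (hout s hs).1
      have hc1 : c = 1 := by
        have h1 := hc j0
        rw [hfe, hfe, hj0, pow_zero, pow_zero, mul_one] at h1
        have h2 : (c - 1) * u j0 = 0 := by linear_combination -h1
        exact sub_eq_zero.1 ((mul_eq_zero.1 h2).resolve_right (hu j0))
      have hpow : ∀ i, (t / s) ^ κ i = 1 := by
        intro i
        have h1 := hc i
        rw [hfe, hfe, hc1, one_mul] at h1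
        rw [div_pow, mul_left_cancel₀ (hu i) h1]
        exact div_self (pow_ne_zero _ hs0)
      have h1 : (t / s) ^ Nat.gcd (κ m1) (κ m0) = 1 := pow_gcd_eq_one.2 ⟨hpow m1, hpow m0⟩
      rw [hcop, pow_one, div_eq_one_iff_eq hs0] at h1
      exact h1
  obtain ⟨t, ht⟩ := Infinite.exists_notMem_finset (S ∪ (onCurve u κ G).roots.toFinset)
  rw [Finset.mem_union, not_or, Multiset.mem_toFinset, Polynomial.mem_roots hG1] at ht
  have h := hβ b S f (by omega) hcurve ⟨t, ht.1, by rw [hfu]; exact ht.2⟩
  rw [hScard] at h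
  exact h

end Pool.Agent.Results.MP_70ba79_ag.DegreeFunctionLowerBound
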