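import Mathlib
import Pool.Agent.X333.DC.Rgh

/-!
MP_70ba79_ag, Q1: degrees of curves in the affine and projective varieties with a dominant
generically finite morphism from the complement of coordinate hyperplanes in a variety given by
nested sums of high powers of monomials.

`V` is an irreducible component, with function field `K` and generic point `y`, of a projective
variety `{F = 0}` given by nested sums of high powers of monomials, and `V°` is the complement in
`V` of the hyperplanes `x_j = 0`, `j` in `U`. `X` is the projective variety with function field `L`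
and generic point `x` (`coords k x = ⊤` says that the ratios of the coordinates generate the
function field, `eqs k x` are the forms which vanish on `X`), and `X°` is the complement in `X` of
the hypersurface `Q = 0`; all affine varieties (`Q = x_0`) and all projective varieties (`Q = 1`)
are of this form. The inclusion `L ⊂ K` is a dominant rational map from `V` to `X`, of degree at
most `r`, which is assumed to be a morphism from `V°` to `X°` (`RegMap`). It need not be proper,
finite or surjective, and `V°`, `X°` may be singular.
-/

set_option autoImplicit false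

namespace Pool.Agent.Results.MP_70ba79_ag.DominatedOpenCurves

open Pool.Agent.W602.GT Pool.Agent.TH710.ND Pool.Agent.X333.DC
open Pool.Agent.W603.GR (OffQ)

/-- Let `V`, `V°`, `X`, `X°` be as above, the forms `F i` nested sums with at most `h + 1` levels,
at most `s` summands at each, and exponents at least `8 ρ r (n + 1) (h + 1) (2 s + 1) ^ 5`, and let
`V° → X°` be a dominant morphism of degree at most `r`. The following are equivalent: `X°` is of log
general type; `X` is of general type; outside some proper closed subset `R = 0` of `X` (which may
be different for the different conditions) the degrees of the morphisms to `X` from coverings of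
degree at most `ρ` of smooth projective curves `C`, with image not in `{Q = 0}`, are at most
`A max (2 g (C) - 2, 0)`; the degrees of the morphisms `f : C \ S → X°` are at most
`A max (2 g (C) - 2 + |S|, 0)`; they are at most `β (2 g (C) - 2 + |S|)` for some function `β`; they
are bounded for every curve `C` and every finite set `S` of points; they are bounded for the
multiplicative group; there are no nonconstant morphisms from the multiplicative group to `X°` whose
image is not in `{R = 0}`. -/
theorem result {k : Type} [Field k] [IsAlgClosed k] [CharZero k] {n M : ℕ} {ι : Type} [Finite ι]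
    {F : ι → MvPolynomial (Fin (n + 1)) k} {s N h r ρ : ℕ}
    (hF : ∀ i, IsForm (F i) ∧ NestedIn IsMono s N h (F i)) (hρ : 1 ≤ ρ)
    (hN : 8 * (ρ * r * ((n + 1) * ((h + 1) * (2 * s + 1) ^ 5))) ≤ N)
    {K : Type} [Field K] [Algebra k K] {w : ℕ} (hw : 1 ≤ w) {y : Fin (n + 1) → K}
    (hy : SubVar F K w y) (hcomp : IsComponent F y) (U : Set (Fin (n + 1))) [Fintype U]
    (hyU : ∀ j ∈ U, y j ≠ 0)
    {L : Type} [Field L] [Algebra k L] [Algebra L K] [IsScalarTower k L K]
    [FiniteDimensional L K] (hr : Module.finrank L K ≤ r)
    {x : Fin (M + 1) → L} (hx : x ≠ 0) (hgen : coords k x = ⊤)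
    {Q : MvPolynomial (Fin (M + 1)) k} {q : ℕ} (hQ : Q.IsHomogeneous q)
    (hreg : RegMap (k := k) U y x Q) :
    [LogGeneralType k L w (OffQ Q q x), GeneralType k L w,
      ∃ R : MvPolynomial (Fin (M + 1)) k, IsForm R ∧ val x R ≠ 0 ∧ CovQ (eqs k x) Q {R} ρ,
      ∃ R : MvPolynomial (Fin (M + 1)) k, IsForm R ∧ val x R ≠ 0 ∧ LinQ (eqs k x) Q q {R},
      ∃ R : MvPolynomial (Fin (M + 1)) k, IsForm R ∧ val x R ≠ 0 ∧ BetaQ (eqs k x) Q q {R},
      ∃ R : MvPolynomial (Fin (M + 1)) k, IsForm R ∧ val x R ≠ 0 ∧ EachQ (eqs k x) Q q {R},
      ∃ R : MvPolynomial (Fin (M + 1)) k, IsForm R ∧ val x R ≠ 0 ∧ RatQ (eqs k x) Q q {R},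
      ∃ R : MvPolynomial (Fin (M + 1)) k, IsForm R ∧ val x R ≠ 0 ∧
        GmQ (eqs k x) Q {R}].TFAE :=
  odom_tfae hF hw hρ hN hy hcomp hyU hr hx hgen hQ hreg

end Pool.Agent.Results.MP_70ba79_ag.DominatedOpenCurves
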