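import Mathlib
import Pool.Agent.X333.DC.OpiT

/-!
MP_70ba79_ag, Q1: the degrees of curves in the complements of hypersurfaces in the images, under
finite morphisms, of projective varieties given by nested sums of few high powers of monomials, and
log general type, over algebraically closed fields of characteristic zero.
-/

set_option autoImplicit false

namespace Pool.Agent.Results.MP_70ba79_ag.NestedImageCurves

open Pool.Agent.W602.GT Pool.Agent.W603.GR Pool.Agent.TH710.ND Pool.Agent.Y221.FQ
  Pool.Agent.X333.DC

/-- Let `k` be an algebraically closed field of characteristic zero, let `V` be the projective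
variety `F i = 0` in `ℙⁿ`, where the forms `F i` are nested sums of high powers of monomials, let
`G : V → ℙᴹ` be a morphism with fibres of at most `r` points, let `{Φ = 0}` be its image, let `Q` be
a form of degree `q` in `M + 1` variables such that the inverse image in `V` of the hypersurface
`Q = 0` is the union of the intersections of `V` with the coordinate hyperplanes `x_j = 0`, `j` in
`U`, and let `X` be the variety `{Φ = 0, Q ≠ 0}`. First part: let `T` be a set of forms, with the
set `Δ` of its common zeros. The following are equivalent: the degrees of the morphisms `f : C' → X`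
from (open subsets of) the coverings `C'` of degree at most `ρ` of curves `C`, with image not in
`Δ`, are at most `A max (2 g (C) - 2, 0)`; the degrees of the morphisms `f : C \ S → X` from curves
`C` without finitely many points, with image not in `Δ`, are at most
`A max (2 g (C) - 2 + |S|, 0)`; they are at most `β (2 g (C) - 2 + |S|)` for a function `β`; they
are bounded for every curve `C \ S`; they are bounded for the morphisms from the multiplicative
group; all nonconstant morphisms from the multiplicative group to `X` have their images in `Δ`; all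
closed subvarieties of positive dimension of `X` which are not contained in `Δ` are of log general
type; their closures are of general type; the images of all orbits in `V \ {x_j = 0, j ∈ U}` of
one-parameter groups of diagonal matrices which are not points are in `Δ`. Second part: let `z` be
the generic point of an irreducible component `Z` of `{Φ = 0}` which is not contained in the
hypersurface `Q = 0`. Then `Z \ {Q = 0}` is of log general type if and only if `Z` is of general
type, if and only if one (all) of the first eight of these conditions hold outside some hypersurface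
`H = 0` which does not contain `Z`. -/
theorem result {k : Type} [Field k] [IsAlgClosed k] [CharZero k] {n M : ℕ} {ι μ : Type} [Finite ι]
    (U : Set (Fin (n + 1))) (F : ι → MvPolynomial (Fin (n + 1)) k)
    (Φ : μ → MvPolynomial (Fin (M + 1)) k) (G : Fin (M + 1) → MvPolynomial (Fin (n + 1)) k)
    (Q : MvPolynomial (Fin (M + 1)) k) (q ρ r s N h : ℕ)
    (hF : ∀ i, IsForm (F i) ∧ NestedIn IsMono s N h (F i)) (hΦ : ∀ e, IsForm (Φ e))
    (hG : Mor F Φ G) (hon : Onto F Φ G) (hfib : FibresLe F G r) (hr : 1 ≤ r) (hρ : 1 ≤ ρ)
    (hN : 8 * (ρ * r * ((n + 1) * ((h + 1) * (2 * s + 1) ^ 5))) ≤ N) (hQ : Q.IsHomogeneous q)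
    (hU : ∀ x ∈ Cone F, val (im G x) Q ≠ 0 ↔ ∀ j ∈ U, x j ≠ 0) :
    -- modulo a closed subset
    (∀ T : Set (MvPolynomial (Fin (M + 1)) k), (∀ H ∈ T, IsForm H) →
      [CovQ Φ Q T ρ, LinQ Φ Q q T, BetaQ Φ Q q T, EachQ Φ Q q T, RatQ Φ Q q T, GmQ Φ Q T,
        LgtQ Φ Q q T, GenQ Φ Q T,
        ∀ x b, DiagCurve U F x b → ∀ H ∈ T, val (im G x) H = 0].TFAE) ∧
    -- the components
    ∀ (K : Type) [Field K] [Algebra k K] (w : ℕ) (z : Fin (M + 1) → K), 1 ≤ w →
      SubVar Φ K w z → val z Q ≠ 0 → IsComponent Φ z →
      [LogGeneralType k K w (OffQ Q q z), GeneralType k K w,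
        ∃ H : MvPolynomial (Fin (M + 1)) k, IsForm H ∧ val z H ≠ 0 ∧ CovQ Φ Q {H} ρ,
        ∃ H : MvPolynomial (Fin (M + 1)) k, IsForm H ∧ val z H ≠ 0 ∧ LinQ Φ Q q {H},
        ∃ H : MvPolynomial (Fin (M + 1)) k, IsForm H ∧ val z H ≠ 0 ∧ BetaQ Φ Q q {H},
        ∃ H : MvPolynomial (Fin (M + 1)) k, IsForm H ∧ val z H ≠ 0 ∧ EachQ Φ Q q {H},
        ∃ H : MvPolynomial (Fin (M + 1)) k, IsForm H ∧ val z H ≠ 0 ∧ RatQ Φ Q q {H},
        ∃ H : MvPolynomial (Fin (M + 1)) k, IsForm H ∧ val z H ≠ 0 ∧ GmQ Φ Q {H},
        ∃ H : MvPolynomial (Fin (M + 1)) k, IsForm H ∧ val z H ≠ 0 ∧ LgtQ Φ Q q {H},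
        ∃ H : MvPolynomial (Fin (M + 1)) k, IsForm H ∧ val z H ≠ 0 ∧ GenQ Φ Q {H}].TFAE :=
  ⟨fun _ hT => opi_tfae hΦ hG hon hfib hF hr hρ hN hQ hU hT,
    fun _ _ _ _ _ hw hz hzQ hc => opi_comp hΦ hG hon hfib hF hr hρ hN hQ hU hw hz hzQ hc⟩

end Pool.Agent.Results.MP_70ba79_ag.NestedImageCurves
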