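import Mathlib
import Pool.Agent.X333.MC.Bound

/-!
MP_70ba79_ag, Q1: the degrees of curves in quasi-projective varieties given by nested sums of few
high powers of monomials, without some of the coordinate hyperplanes, and log general type, over
algebraically closed fields of characteristic zero.
-/

set_option autoImplicit false

namespace Pool.Agent.Results.MP_70ba79_ag.NestedMonomialCurves

open FF MvPolynomial Pool.Agent.W603.LV Pool.Agent.W603.PV Pool.Agent.W603.CX Pool.Agent.W602.GT
  Pool.Agent.TH710.ND Pool.Agent.TH710.NU Pool.Agent.X333.MC

/-- Let `k` be an algebraically closed field of characteristic zero, and let `X` be the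
quasi-projective variety `F i = 0`, `x_j ≠ 0` for `j` in `U`, over `k`, where the forms `F i` are
nested sums of few high powers of monomials. First part: for every set `A` of polynomials, with the
set `Δ` of its zeros, the following are equivalent: the degrees of the maps `f : C \ S → X` from
curves `C` without finitely many points, with image not in `Δ`, are at most `B max (2 g - 2, 0)`
(independently of `S`); they are at most `B max (2 g - 2 + |S|, 0)`; they are at most
`β (2 g - 2 + |S|)` for a function `β`; they are bounded for every curve `C \ S`; they are bounded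
for the maps from the multiplicative group; all orbits of one-parameter groups of diagonal matrices
which are in `X` and are not points are in `Δ`. Second part: the same for the maps to an irreducible
component `V` of `X`, outside some proper closed subset of `V`; these hold if and only if every
one-parameter group of diagonal matrices which maps `V` to `V` acts trivially on `V`, and they hold
if `V` is of log general type. Third part: if the exponents are large, then they hold if and only if
`V` is of log general type, if and only if the closure of `V` is of general type. -/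
theorem result {k : Type} [Field k] [IsAlgClosed k] [CharZero k] {n : ℕ} {ι : Type} [Finite ι]
    (U : Set (Fin (n + 1))) (F : ι → MvPolynomial (Fin (n + 1)) k)
    (hF : ∀ i, IsForm (F i) ∧ MTower (F i)) :
    -- modulo a closed subset
    (∀ A : Set (MvPolynomial (Fin (n + 1)) k),
      [∃ B : ℕ, ∀ (L : Type) [Field L] [Algebra k L] [IsFF k L] (S : Finset (Place k L))
          (f : Fin (n + 1) → L), IsMapXU U F S f → (∃ G ∈ A, aeval f G ≠ 0) →
            pht k f ≤ B * max (canDeg k L) 0,
        ∃ B : ℕ, ∀ (L : Type) [Field L] [Algebra k L] [IsFF k L] (S : Finset (Place k L))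
          (f : Fin (n + 1) → L), IsMapXU U F S f → (∃ G ∈ A, aeval f G ≠ 0) →
            pht k f ≤ B * max (canDeg k L + S.card) 0,
        ∃ β : ℤ → ℤ, ∀ (L : Type) [Field L] [Algebra k L] [IsFF k L] (S : Finset (Place k L))
          (f : Fin (n + 1) → L), IsMapXU U F S f → (∃ G ∈ A, aeval f G ≠ 0) →
            pht k f ≤ β (canDeg k L + S.card),
        ∀ (L : Type) [Field L] [Algebra k L] [IsFF k L] (S : Finset (Place k L)), ∃ B : ℤ,
          ∀ f : Fin (n + 1) → L, IsMapXU U F S f → (∃ G ∈ A, aeval f G ≠ 0) → pht k f ≤ B,
        ∃ B : ℤ, ∀ f : Fin (n + 1) → RatFunc k, IsMapXU U F (zeroInf k) f →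
          (∃ G ∈ A, aeval f G ≠ 0) → pht k f ≤ B,
        ∀ x b, DiagCurve U F x b → ∀ G ∈ A, val x G = 0].TFAE) ∧
    ∀ (K : Type) [Field K] [Algebra k K] (w : ℕ) (y : Fin (n + 1) → K),
      SubVarU U F K w y → IsComponentU U F y →
      -- the components
      [GenusBoundU (k := k) U y, LinBoundU (k := k) U y, EulerBoundU (k := k) U y,
        EachBoundU (k := k) U y, GmBoundU (k := k) U y, NoActionU k U y].TFAE ∧
      (LogGeneralType k K w (OffU U y) → GenusBoundU (k := k) U y) ∧
      -- large exponents
      ∀ s N h : ℕ, (∀ i, NestedIn IsMono s N h (F i)) →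
        (n + 1) * ((h + 1) * (2 * s + 1) ^ 5) ≤ N →
        [LogGeneralType k K w (OffU U y), GeneralType k K w, GenusBoundU (k := k) U y,
          LinBoundU (k := k) U y, EulerBoundU (k := k) U y, EachBoundU (k := k) U y,
          GmBoundU (k := k) U y, NoActionU k U y].TFAE := by
  refine ⟨fun A => mod_monos (fun i => (hF i).2) (fun i => (hF i).1) A,
    fun K _ _ w y hy hcomp => ?_⟩
  have h1 := comp_monos (fun i => (hF i).2) (fun i => (hF i).1) hy hcomp
  have h2 : NoActionU k U y → GenusBoundU (k := k) U y := (h1.out 0 5).2
  exact ⟨h1, fun h => h2 (no_of_lgt (fun i => (hF i).1) hy hcomp h),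
    fun s N h hF' hN => comp_lgt (fun i => ⟨(hF i).1, hF' i⟩) hN hy hcomp⟩

end Pool.Agent.Results.MP_70ba79_ag.NestedMonomialCurves
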